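import Pool.Agent.H590Z.HC.Defs

set_option autoImplicit false

open Filter Topology Finset

namespace Pool.Agent.H590Z.HC

namespace T6aux

/-- the finite rank operators of a summation method -/
noncomputable def TT (e e' : ℕ → H) (R : ℕ → ℕ → ℂ) (j K : ℕ) : H →L[ℂ] H :=
  ∑ k ∈ range K, R j k • ∑ n ∈ range (k + 1), (innerSL ℂ (e' n)).smulRight (e n)

theorem TT_apply (e e' : ℕ → H) (R : ℕ → ℕ → ℂ) (j K : ℕ) (g : H) :
    TT e e' R j K g = ∑ k ∈ range K, R j k • ∑ n ∈ range (k + 1), inner ℂ (e' n) g • e n := by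
  simp [TT, ContinuousLinearMap.sum_apply]

/-- the multipliers -/
noncomputable def mm (R : ℕ → ℕ → ℂ) (j K n : ℕ) : ℂ := ∑ k ∈ range K, if n ≤ k then R j k else 0

theorem inner_TT (e e' : ℕ → H) (R : ℕ → ℕ → ℂ) (j K : ℕ) (a g : H) :
    inner ℂ a (TT e e' R j K g) =
      ∑ n ∈ range K, mm R j K n * (inner ℂ (e' n) g * inner ℂ a (e n)) := by
  rw [TT_apply]
  simp only [inner_sum, inner_smul_right, mm, sum_mul]
  rw [sum_comm]
  refine sum_congr rfl (fun k hk => ?_)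
  rw [mul_sum]
  have h1 : range (k + 1) = (range K).filter (fun n => n ≤ k) := by
    ext n
    simp only [mem_range, mem_filter]
    have := mem_range.1 hk
    omega
  rw [h1, sum_filter]
  refine sum_congr rfl (fun n _ => ?_)
  split_ifs <;> simp

theorem mm_le {R : ℕ → ℕ → ℂ} {C : ℝ} (hC : ∀ j, Summable (fun k => ‖R j k‖) ∧ ∑' k, ‖R j k‖ ≤ C)
    (j K n : ℕ) : ‖mm R j K n‖ ≤ C := by
  refine (norm_sum_le _ _).trans (le_trans ?_ (hC j).2)
  refine le_trans (sum_le_sum (fun k _ => ?_))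
    ((hC j).1.sum_le_tsum (range K) (fun k _ => norm_nonneg _))
  split_ifs <;> simp

theorem mm_tendsto {R : ℕ → ℕ → ℂ} (j n : ℕ) (hs : Summable (fun k => ‖R j k‖)) :
    Tendsto (fun K => mm R j K n) atTop (𝓝 (∑' k, R j k - ∑ k ∈ range n, R j k)) := by
  have h1 := (hs.of_norm.hasSum.tendsto_sum_nat).sub_const (∑ k ∈ range n, R j k)
  refine h1.congr' ?_
  filter_upwards [eventually_ge_atTop n] with K hK
  rw [mm, ← sum_filter, ← sum_range_add_sum_Ico _ hK, add_sub_cancel_left]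
  refine sum_congr ?_ (fun _ _ => rfl)
  ext k
  simp only [mem_Ico, mem_filter, mem_range]
  tauto

end T6aux

open T6aux in
theorem not_summable (e e' : ℕ → H) (n0 : ℕ) (u : H) (f y : ℕ → H) (ε : ℕ → ℝ) (hε : Summable ε)
    (h0 : ∀ l, inner ℂ u (f l) = 0) (h1 : ∀ l, ‖y l‖ * ‖f l‖ ≤ ε l)
    (h2 : ∀ n, Tendsto (fun L => ∑ l ∈ Finset.range L, inner ℂ (e' n) (f l) * inner ℂ u (e n)) atTop
      (𝓝 (if n = n0 then -1 else 0)))
    (h3 : ∀ l N, ∑ n ∈ Finset.range N, ‖inner ℂ (e' n) (f l) * inner ℂ (u - y l) (e n)‖ ≤ ε l)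
    (R : ℕ → ℕ → ℂ) (hR : IsSummationMethod R) :
    ¬ ∀ g : H, RSummable R (fun n => inner ℂ (e' n) g • e n) g := by
  intro hs
  obtain ⟨⟨C0, hC0⟩, hR1, hR2⟩ := hR
  choose w hw1 hw2 using hs
  have hw1' : ∀ g j, Tendsto (fun K => TT e e' R j K g) atTop (𝓝 (w g j)) := by
    intro g j
    simpa only [TT_apply] using hw1 g j
  have hC0' : 0 ≤ C0 := (norm_nonneg _).trans (mm_le hC0 0 0 0)
  have hbd : ∀ (s : ℕ → H) (x : H), Tendsto s atTop (𝓝 x) → ∃ C, ∀ i, ‖s i‖ ≤ C := by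
    intro s x hx
    obtain ⟨C, hC⟩ := hx.norm.bddAbove_range
    exact ⟨C, fun i => hC ⟨i, rfl⟩⟩
  have hC1 : ∀ j, ∃ C, ∀ K, ‖TT e e' R j K‖ ≤ C := fun j =>
    banach_steinhaus (fun g => hbd _ _ (hw1' g j))
  choose C1 hC1 using hC1
  let T : ℕ → H →L[ℂ] H := fun j =>
    continuousLinearMapOfTendsto (fun K => TT e e' R j K) (f := fun g => w g j)
      (tendsto_pi_nhds.2 (fun g => hw1' g j))
  have hT : ∀ j g, T j g = w g j := fun j g => rfl
  obtain ⟨C, hC⟩ : ∃ C, ∀ j, ‖T j‖ ≤ C := banach_steinhaus (fun g => hbd _ _ (hw2 g))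
  have hA : ∀ j K l, ‖inner ℂ (u - y l) (TT e e' R j K (f l))‖ ≤ C0 * ε l := by
    intro j K l
    rw [inner_TT]
    refine (norm_sum_le _ _).trans (le_trans (sum_le_sum (fun n _ => ?_))
      ((mul_sum _ _ _).symm.le.trans (mul_le_mul_of_nonneg_left (h3 l K) hC0')))
    rw [norm_mul]
    exact mul_le_mul_of_nonneg_right (mm_le hC0 j K n) (norm_nonneg _)
  have hB : ∀ (S : H →L[ℂ] H) (D : ℝ) (l : ℕ), ‖S‖ ≤ D →
      ‖inner ℂ (u - y l) (S (f l))‖ ≤ C0 * ε l → ‖inner ℂ u (S (f l))‖ ≤ (C0 + D) * ε l := by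
    intro S D l hS h
    have e1 : inner ℂ u (S (f l)) = inner ℂ (u - y l) (S (f l)) + inner ℂ (y l) (S (f l)) := by
      rw [inner_sub_left]; ring
    have e2 : ‖inner ℂ (y l) (S (f l))‖ ≤ D * ε l := by
      refine (norm_inner_le_norm _ _).trans ?_
      have e3 : ‖S (f l)‖ ≤ D * ‖f l‖ := S.le_of_opNorm_le hS _
      have e4 : 0 ≤ D := (norm_nonneg _).trans hS
      calc ‖y l‖ * ‖S (f l)‖ ≤ ‖y l‖ * (D * ‖f l‖) :=
            mul_le_mul_of_nonneg_left e3 (norm_nonneg _)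
        _ = D * (‖y l‖ * ‖f l‖) := by ring
        _ ≤ D * ε l := mul_le_mul_of_nonneg_left (h1 l) e4
    rw [e1]
    refine (norm_add_le _ _).trans ?_
    linarith
  have hD : ∀ j K, n0 < K → ∑' l, inner ℂ u (TT e e' R j K (f l)) = - mm R j K n0 := by
    intro j K hK
    have e1 : Summable (fun l => inner ℂ u (TT e e' R j K (f l))) :=
      Summable.of_norm_bounded (hε.mul_left (C0 + C1 j)) (fun l => hB _ _ l (hC1 j K) (hA j K l))
    refine tendsto_nhds_unique e1.hasSum.tendsto_sum_nat ?_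
    have e2 := tendsto_finset_sum (range K) (fun n _ => (h2 n).const_mul (mm R j K n))
    have e3 : ∑ n ∈ range K, mm R j K n * (if n = n0 then -1 else 0) = - mm R j K n0 := by
      simp [mem_range.2 hK]
    rw [e3] at e2
    refine e2.congr (fun L => ?_)
    simp only [inner_TT, mul_sum]
    exact sum_comm
  have hE : ∀ j, ∑' l, inner ℂ u (T j (f l)) = - (∑' k, R j k - ∑ k ∈ range n0, R j k) := by
    intro j
    have e1 : Tendsto (fun K => ∑' l, inner ℂ u (TT e e' R j K (f l))) atTop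
        (𝓝 (∑' l, inner ℂ u (T j (f l)))) :=
      tendsto_tsum_of_dominated_convergence (hε.mul_left (C0 + C1 j))
        (fun l => tendsto_const_nhds.inner (hw1' (f l) j))
        (Eventually.of_forall (fun K l => hB _ _ l (hC1 j K) (hA j K l)))
    refine tendsto_nhds_unique e1 ((mm_tendsto j n0 (hC0 j).1).neg.congr' ?_)
    filter_upwards [eventually_gt_atTop n0] with K hK
    exact (hD j K hK).symm
  have hF : Tendsto (fun j => ∑' l, inner ℂ u (T j (f l))) atTop (𝓝 (∑' l, inner ℂ u (f l))) := by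
    refine tendsto_tsum_of_dominated_convergence (hε.mul_left (C0 + C))
      (fun l => tendsto_const_nhds.inner (hw2 (f l)))
      (Eventually.of_forall (fun j l => hB _ _ l (hC j) ?_))
    exact le_of_tendsto' ((tendsto_const_nhds.inner (hw1' (f l) j)).norm) (fun K => hA j K l)
  have hG := (hR2.sub (tendsto_finset_sum (range n0) (fun k _ => hR1 k))).neg
  simp only [hE, h0, tsum_zero] at hF
  have := tendsto_nhds_unique hF hG
  simp at this

end Pool.Agent.H590Z.HC
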